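import Pool.Agent.Lib.MP_aa40d3_nt.GR.SpecA

/-! Specialisation of algebraic power series with coefficients in the ring of a plane curve. -/

open Polynomial Matrix
open scoped Polynomial.Bivariate

namespace Pool.Agent.GR.SP

theorem bez' (K : Type) [Field K] [Algebra ℂ[X] K] [IsFractionRing ℂ[X] K] {P M : ℂ[X][Y]}
    (hP : P.Monic) (hI : Irreducible P) (hM : ¬ P ∣ M) :
    ∃ (q : ℂ[X][Y]) (c : ℂ[X]), c ≠ 0 ∧ P ∣ q * M - C c := by
  let μ : ℂ[X] →+* K := algebraMap ℂ[X] K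
  have hμ : Function.Injective μ := IsFractionRing.injective ℂ[X] K
  have h1 : Irreducible (P.map μ) := (hP.irreducible_iff_irreducible_map_fraction_map (K := K)).1 hI
  obtain ⟨u, v, h⟩ := h1.coprime_iff_not_dvd.2 (mt (map_dvd_map μ hμ hP).1 hM)
  obtain ⟨c, hc, e⟩ := IsLocalization.integerNormalization_spec (nonZeroDivisors ℂ[X]) v
  refine ⟨IsLocalization.integerNormalization (nonZeroDivisors ℂ[X]) v, c,
    nonZeroDivisors.ne_zero hc, (map_dvd_map μ hμ hP).1 ⟨-(C (μ c) * u), ?_⟩⟩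
  rw [Polynomial.map_sub, Polynomial.map_mul, map_C, e, ← algebraMap_smul K, smul_eq_C_mul]
  linear_combination C (μ c) * h

theorem bez {P M : ℂ[X][Y]} (hP : P.Monic) (hI : Irreducible P) (hM : ¬ P ∣ M) :
    ∃ (q : ℂ[X][Y]) (c : ℂ[X]), c ≠ 0 ∧ P ∣ q * M - C c := bez' (RatFunc ℂ) hP hI hM

theorem bez_eval {P M q : ℂ[X][Y]} {c : ℂ[X]} (h : P ∣ q * M - C c) {x y : ℂ}
    (h0 : P.evalEval x y = 0) (h1 : M.evalEval x y = 0) : c.eval x = 0 := by
  obtain ⟨a, ha⟩ := h
  have h2 := congrArg (evalEval x y) ha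
  rw [evalEval_sub, evalEval_mul, evalEval_mul, evalEval_C, h0, h1, zero_mul, mul_zero] at h2
  linear_combination -h2

theorem bez_der {P : ℂ[X][Y]} (hP : P.Monic) (hI : Irreducible P) :
    P.natDegree ≠ 0 ∧ ∃ (q : ℂ[X][Y]) (c : ℂ[X]), c ≠ 0 ∧ P ∣ q * derivative P - C c := by
  have h0 : P.natDegree ≠ 0 := fun h => hI.not_isUnit (hP.natDegree_eq_zero.1 h ▸ isUnit_one)
  refine ⟨h0, bez hP hI fun h => ?_⟩
  have h1 : derivative P ≠ 0 := fun e => h0 (derivative_eq_zero.1 e)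
  exact (natDegree_derivative_lt h0).not_ge (natDegree_le_of_dvd h h1)

variable {R : Type} [CommRing R]

/-- The value at a point, after a change of coefficients. -/
noncomputable def ev2 (ψ : R →+* ℂ) (x y : ℂ) : R[X][Y] →+* ℂ :=
  (evalEvalRingHom x y).comp (mapRingHom (mapRingHom ψ))

theorem ev2_apply (ψ : R →+* ℂ) (x y : ℂ) (p : R[X][Y]) :
    ev2 ψ x y p = (p.map (mapRingHom ψ)).evalEval x y := rfl

theorem spec_det2 (ι ψ : R →+* ℂ) (hi : Function.Injective ι) {P : R[X][Y]} (hP : P.Monic)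
    (hI : Irreducible (P.map (mapRingHom ι))) (f : PowerSeries R[X][Y]) {Z : Set ℂ}
    (hZ : ¬ Z.Countable) (y : ℂ → ℂ) (h0 : ∀ z ∈ Z, ev2 ι z (y z) P = 0)
    (h : ∀ z ∈ Z, IsAlgebraic ℂ[X] (PowerSeries.map (ev2 ι z (y z)) f)) {w v : ℂ}
    (hw : ev2 ψ w v P = 0) : IsAlgebraic ℂ[X] (PowerSeries.map (ev2 ψ w v) f) := by
  classical
  by_contra hn
  rw [speca_alg_iff, not_not, linearIndependent_iff_finset_linearIndependent] at hn
  apply hZ
  have key : ∀ s : Finset (ℕ × ℕ), Set.Finite {z : ℂ | z ∈ Z ∧ ¬ LinearIndependent ℂ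
      ((fun ij : ℕ × ℕ => PowerSeries.X ^ ij.1 * (PowerSeries.map (ev2 ι z (y z)) f) ^ ij.2) ∘
        (Subtype.val : s → ℕ × ℕ))} := by
    intro s
    obtain ⟨m, hm⟩ := speca_minor (hn s)
    let M : Matrix s s R[X][Y] :=
      Matrix.of fun i k => PowerSeries.coeff (m k) (PowerSeries.X ^ i.1.1 * f ^ i.1.2)
    have hM : ∀ χ : R[X][Y] →+* ℂ, (Matrix.of fun (i k : s) => PowerSeries.coeff (m k)
        (((fun ij : ℕ × ℕ => PowerSeries.X ^ ij.1 * (PowerSeries.map χ f) ^ ij.2) ∘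
          (Subtype.val : s → ℕ × ℕ)) i)).det = χ M.det := by
      intro χ
      rw [RingHom.map_det]
      congr 1
      ext i k
      simp only [M, Matrix.of_apply, Function.comp, RingHom.mapMatrix_apply, Matrix.map_apply]
      rw [← PowerSeries.coeff_map]
      simp
    have hM0 : ¬ P ∣ M.det := by
      rintro ⟨a, ha⟩
      rw [hM, ha, map_mul, hw, zero_mul] at hm
      exact hm rfl
    obtain ⟨q, c, hc, hq⟩ := bez (hP.map _) hI
      (mt (map_dvd_map (mapRingHom ι) (map_injective ι hi) hP).1 hM0)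
    refine c.roots.toFinset.finite_toSet.subset fun z hz => ?_
    by_contra hz'
    apply hz.2
    refine speca_indep (m := m) ?_
    rw [hM]
    intro h1
    apply hz'
    simp only [Finset.mem_coe, Multiset.mem_toFinset, mem_roots hc, IsRoot.def]
    exact bez_eval hq (h0 z hz.1) h1
  refine (Set.countable_iUnion fun s : Finset (ℕ × ℕ) => (key s).countable).mono fun z hz => ?_
  have h1 := h z hz
  rw [speca_alg_iff, linearIndependent_iff_finset_linearIndependent, not_forall] at h1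
  obtain ⟨s, hs⟩ := h1
  exact Set.mem_iUnion.2 ⟨s, hz, hs⟩

end Pool.Agent.GR.SP
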