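import Pool.Agent.Lib.MP_aa40d3_nt.GR.Seg

/-! Holomorphic fundamental solutions near an ordinary point. -/

open Set Filter Topology Metric

namespace Pool.Agent.GR.SP

variable {𝔸 : Type} [NormedRing 𝔸] [NormedAlgebra ℂ 𝔸] [CompleteSpace 𝔸]

/-- A continuous family of paths that is holomorphic at each time is holomorphic. -/
theorem diff_curry {f : ℂ → C(unitInterval, 𝔸)} (hf : Continuous f) {c : ℂ} {ρ : ℝ} (hρ : 0 < ρ)
    (hd : ∀ s, ∀ x ∈ ball c ρ, DifferentiableAt ℂ (fun y => f y s) x) {w : ℂ} (hw : w ∈ ball c ρ) :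
    DifferentiableAt ℂ f w := by
  lift ρ to NNReal using hρ.le
  have hi : CircleIntegrable f c ρ := hf.continuousOn.circleIntegrable hρ.le
  have h1 := hasFPowerSeriesOn_cauchy_integral hi (by exact_mod_cast hρ)
  have h2 : ∀ x ∈ ball c ρ, ((2 * Real.pi * Complex.I : ℂ)⁻¹ •
      ∮ z in C(c, ρ), (z - x)⁻¹ • f z) = f x := by
    intro x hx
    ext s
    have hc : Continuous fun y => f y s := (continuous_eval_const s).comp hf
    rw [← Complex.two_pi_I_inv_smul_circleIntegral_sub_inv_smul_of_differentiable_on_off_countable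
      countable_empty hx hc.continuousOn fun z hz => hd s z hz.1, ContinuousMap.smul_apply]
    congr 1
    have h3 : CircleIntegrable (fun z => (z - x)⁻¹ • f z) c ρ := by
      refine ContinuousOn.circleIntegrable hρ.le (ContinuousOn.fun_smul ?_ hf.continuousOn)
      refine ContinuousOn.fun_inv₀ (by fun_prop) fun z hz h => ?_
      rw [sub_eq_zero] at h
      rw [h, mem_sphere] at hz
      exact (mem_ball.1 hx).ne hz
    exact ((ContinuousMap.evalCLM ℂ s : C(unitInterval, 𝔸) →L[ℂ] 𝔸).intervalIntegral_comp_comm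
      h3.out).symm
  have h4 : w ∈ eball c ρ := by rwa [Metric.eball_coe]
  refine (h1.analyticAt_of_mem h4).differentiableAt.congr_of_eventuallyEq ?_
  filter_upwards [isOpen_ball.mem_nhds hw] with x hx using (h2 x hx).symm

theorem exists_clamp (c : ℂ) {ρ : ℝ} (hρ : 0 < ρ) : ∃ κ : ℂ → ℂ, Continuous κ ∧
    (∀ x, κ x ∈ closedBall c ρ) ∧ ∀ x ∈ closedBall c ρ, κ x = x := by
  have h0 : ∀ x : ℂ, 0 < max ρ ‖x - c‖ := fun x => lt_max_of_lt_left hρ
  refine ⟨fun x => c + (ρ / max ρ ‖x - c‖) • (x - c), ?_, fun x => ?_, fun x hx => ?_⟩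
  · have : Continuous fun x : ℂ => ρ / max ρ ‖x - c‖ :=
      continuous_const.div (by fun_prop) fun x => (h0 x).ne'
    fun_prop
  · rw [mem_closedBall_iff_norm, add_sub_cancel_left, norm_smul,
      Real.norm_of_nonneg (div_pos hρ (h0 x)).le, div_mul_eq_mul_div, div_le_iff₀ (h0 x)]
    exact mul_le_mul_of_nonneg_left (le_max_right _ _) hρ.le
  · rw [mem_closedBall_iff_norm] at hx
    simp [max_eq_left hx, hρ.ne']

theorem seg_ball {c x : ℂ} {ρ s : ℝ} (hx : x ∈ ball c ρ) (hs : s ∈ Icc (0 : ℝ) 1) :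
    c + s * (x - c) ∈ ball c ρ := by
  rw [mem_ball_iff_norm] at hx ⊢
  rw [add_sub_cancel_left, norm_mul, Complex.norm_real, Real.norm_of_nonneg hs.1]
  exact (mul_le_of_le_one_left (norm_nonneg _) hs.2).trans_lt hx

theorem hol_aux {B : ℂ → 𝔸} (hc : Continuous B) {c : ℂ} {ρ : ℝ} (hρ : 0 < ρ)
    (hB : ∀ x ∈ ball c ρ, DifferentiableAt ℂ B x) :
    ∃ Z : ℂ → 𝔸, Z c = 1 ∧ ∀ x ∈ ball c ρ, HasDerivAt Z (B x * Z x) x := by
  let g : C(ℂ × unitInterval, 𝔸) :=
    ⟨fun p => (p.1 - c) • B (c + (p.2 : ℝ) * (p.1 - c)), by fun_prop⟩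
  let f : ℂ → C(unitInterval, 𝔸) := g.curry
  have hf : ∀ y s, f y s = (y - c) • B (c + (s : ℝ) * (y - c)) := fun _ _ => rfl
  have he : ∀ y, ∀ s ∈ Icc (0 : ℝ) 1, ext (f y) s = (y - c) • B (c + s * (y - c)) := by
    intro y s hs
    rw [ext, hf, projIcc_of_mem _ hs]
  have hd : ∀ x ∈ ball c ρ, DifferentiableAt ℂ (fun y => Tr (f y)) x := by
    intro x hx
    refine (differentiable_Tr _).comp x (diff_curry g.curry.continuous hρ (fun s y hy => ?_) hx)
    have h1 : DifferentiableAt ℂ (fun y : ℂ => c + (s : ℝ) * (y - c)) y := by fun_prop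
    exact (differentiableAt_id.sub_const c).smul
      (DifferentiableAt.comp (g := B) y (hB _ (seg_ball hy s.2)) h1)
  have hne : ∀ x ∈ ball c ρ, x ≠ c → deriv (fun y => Tr (f y)) x = B x * Tr (f x) := by
    intro x hx hxc
    obtain ⟨Y, hY0, hY1, hY⟩ := Tr_spec (f x)
    have hF : ∀ s ∈ Icc (0 : ℝ) 1, Tr (f (c + s * (x - c))) = Y s := by
      intro s hs
      have h1 := Tr_unique (f (c + s * (x - c))) (fun σ => Y (s * σ)) (fun σ hσ => by
        have hm : s * σ ∈ Icc (0 : ℝ) 1 := ⟨mul_nonneg hs.1 hσ.1, mul_le_one₀ hs.2 hσ.1 hσ.2⟩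
        have h2 := (hY _ hm).scomp σ ((hasDerivAt_id σ).const_mul s)
        rw [he _ _ hm] at h2
        rw [he _ _ hσ]
        have e1 : c + (σ : ℂ) * (c + s * (x - c) - c) = c + ((s * σ : ℝ) : ℂ) * (x - c) := by
          push_cast
          ring
        have e2 : c + s * (x - c) - c = (s : ℂ) * (x - c) := by ring
        rw [e1, e2]
        refine HasDerivAt.congr_deriv h2 ?_
        rw [mul_one, mul_smul, smul_mul_assoc (s : ℂ), Complex.coe_smul])
      simpa [hY0] using h1.symm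
    have hx1 : c + ((1 : ℝ) : ℂ) * (x - c) = x := by simp
    have h0 : HasDerivAt (fun y => Tr (f y)) (deriv (fun y => Tr (f y)) x)
        (c + ((1 : ℝ) : ℂ) * (x - c)) := by
      rw [hx1]
      exact (hd x hx).hasDerivAt
    have hl : HasDerivAt (fun s : ℝ => c + (s : ℂ) * (x - c)) (x - c) 1 := by
      simpa using ((Complex.ofRealCLM.hasDerivAt (x := 1)).mul_const (x - c)).const_add c
    have h1 := (h0.scomp (1 : ℝ) hl).hasDerivWithinAt (s := Icc 0 1)
    have hm : (1 : ℝ) ∈ Icc (0 : ℝ) 1 := ⟨zero_le_one, le_rfl⟩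
    have h2 : HasDerivWithinAt ((fun y => Tr (f y)) ∘ fun s : ℝ => c + (s : ℂ) * (x - c))
        (ext (f x) 1 * Y 1) (Icc 0 1) 1 :=
      (hY 1 hm).hasDerivWithinAt.congr (fun s hs => hF s hs) (hF 1 hm)
    have h3 := (uniqueDiffOn_Icc zero_lt_one 1 hm).eq_deriv _ h1 h2
    rw [he _ _ hm, hx1, hY1, smul_mul_assoc] at h3
    exact smul_right_injective 𝔸 (sub_ne_zero.mpr hxc) h3
  refine ⟨fun y => Tr (f y), ?_, fun x hx => ?_⟩
  · have h1 := Tr_unique (f c) (fun _ => 1) (fun s hs => by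
      simpa [he _ _ hs] using hasDerivAt_const s (1 : 𝔸))
    simpa using h1.symm
  · suffices hs : deriv (fun y => Tr (f y)) x = B x * Tr (f x) from hs ▸ (hd x hx).hasDerivAt
    by_cases hxc : x = c
    swap
    · exact hne x hx hxc
    subst hxc
    have hev : ∀ᶠ y in 𝓝 x, y ∈ ball x ρ := ball_mem_nhds x hρ
    have han : AnalyticAt ℂ (fun y => Tr (f y)) x := by
      rw [Complex.analyticAt_iff_eventually_differentiableAt]
      filter_upwards [hev] with y hy using hd y hy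
    have hc2 : ContinuousAt (fun y => B y * Tr (f y)) x := hc.continuousAt.mul han.continuousAt
    refine tendsto_nhds_unique (l := nhdsWithin x {x}ᶜ)
      (han.deriv.continuousAt.tendsto.mono_left nhdsWithin_le_nhds) ?_
    refine (hc2.tendsto.mono_left nhdsWithin_le_nhds).congr' ?_
    filter_upwards [nhdsWithin_le_nhds hev, self_mem_nhdsWithin] with y hy hyx
    exact (hne y hy hyx).symm

theorem exists_hol {B : ℂ → 𝔸} {c : ℂ} (hB : ∀ᶠ x in 𝓝 c, DifferentiableAt ℂ B x) :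
    ∃ Z : ℂ → 𝔸, Z c = 1 ∧ ∀ᶠ x in 𝓝 c, HasDerivAt Z (B x * Z x) x := by
  obtain ⟨ρ, hρ, hb⟩ := nhds_basis_closedBall.eventually_iff.1 hB
  obtain ⟨κ, h1, h2, h3⟩ := exists_clamp c hρ
  have hc : Continuous (B ∘ κ) :=
    ContinuousOn.comp_continuous (fun x hx => (hb hx).continuousAt.continuousWithinAt) h1 h2
  obtain ⟨Z, h0, hZ⟩ := hol_aux hc hρ fun x hx => (hb (ball_subset_closedBall hx)).congr_of_eventuallyEq
    (by filter_upwards [isOpen_ball.mem_nhds hx] with y hy using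
      congrArg B (h3 y (ball_subset_closedBall hy)))
  refine ⟨Z, h0, ?_⟩
  filter_upwards [ball_mem_nhds c hρ] with x hx
  have := hZ x hx
  rwa [Function.comp, h3 x (ball_subset_closedBall hx)] at this

open scoped Matrix.Norms.Operator in
theorem exists_holM {r : ℕ} {B : ℂ → Matrix (Fin r) (Fin r) ℂ} {c : ℂ}
    (hB : ∀ᶠ x in 𝓝 c, ∀ a b, DifferentiableAt ℂ (fun z => B z a b) x) :
    ∃ Z : ℂ → Matrix (Fin r) (Fin r) ℂ, Z c = 1 ∧
      ∀ᶠ x in 𝓝 c, ∀ a b, HasDerivAt (fun z => Z z a b) ((B x * Z x) a b) x := by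
  obtain ⟨Z, h0, hZ⟩ := exists_hol (B := B) (c := c) (hB.mono fun x hx => by
    have e : B = fun z => ∑ a, ∑ b, B z a b • Matrix.single a b (1 : ℂ) := by
      funext z
      simpa using Matrix.matrix_eq_sum_single (B z)
    rw [e]
    exact DifferentiableAt.fun_sum fun a _ => DifferentiableAt.fun_sum fun b _ =>
      (hx a b).smul_const _)
  refine ⟨Z, h0, hZ.mono fun x hx a b => ?_⟩
  let L : Matrix (Fin r) (Fin r) ℂ →L[ℂ] ℂ :=
    LinearMap.toContinuousLinearMap (Matrix.entryLinearMap ℂ ℂ a b)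
  exact L.hasFDerivAt.comp_hasDerivAt x hx

end Pool.Agent.GR.SP
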