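import Pool.Agent.Lib.MP_aa40d3_nt.SP.Tay
import Pool.Agent.Lib.MP_aa40d3_nt.SP.Hol
import Pool.Agent.Lib.MP_aa40d3_nt.GR.Spec

/-! Algebraicity of the solutions of a system on a curve passes to specialisations. -/

open Polynomial Matrix Filter Topology
open scoped Polynomial.Bivariate

namespace Pool.Agent.GR.SP

open Pool.Agent.GR.CV

variable {R : Type} [CommRing R] {r : ℕ}

theorem ee_ne {S : Sys ℂ r} {q : ℂ[X][Y]} {c : ℂ[X]} (h : S.P ∣ q * derivative S.P - C c)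
    {x y : ℂ} (h0 : S.P.evalEval x y = 0) (hc : c.eval x ≠ 0) (hD : S.D.eval x ≠ 0) :
    (ee S).evalEval x y ≠ 0 := by
  rw [ee, evalEval_mul, evalEval_C]
  exact mul_ne_zero hD fun h1 => hc (bez_eval h h0 h1)

theorem spec_rat2 [Algebra ℚ R] (ι ψ : R →+* ℂ) (hi : Function.Injective ι) (S : Sys R r)
    (hP : S.P.Monic) (hI : Irreducible (S.map ι).P) (hA : (S.map ι).Alg)
    (hI' : Irreducible (S.map ψ).P) (hD' : (S.map ψ).D ≠ 0) : (S.map ψ).Alg := by
  obtain ⟨x₀, ε, y, Z, hε, hZ, hQ⟩ := hA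
  obtain ⟨-, q, c, hc, hq⟩ := bez_der (P := (S.map ι).P) (hP.map _) hI
  obtain ⟨x₁, η, hη, hsub, hne⟩ := exists_ball hc x₀ hε
  have halg : ∀ a b, ∀ z ∈ Metric.ball x₁ η,
      IsAlgebraic ℂ[X] (PowerSeries.map (ev2 ι z (y z)) (ff S a b)) := by
    intro a b z hz
    have hn := Metric.isOpen_ball.mem_nhds hz
    refine (tay_near (Z := fun x => Z x * (Z z)⁻¹) S ι ?_
      (Matrix.mul_nonsing_inv _ (hZ z (hsub hz)).2.2.2.1.isUnit) a b).1 ?_
    · filter_upwards [hn] with x hx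
      obtain ⟨h1, h2, h3, -, h5⟩ := hZ x (hsub hx)
      refine ⟨h1, h2, ee_ne hq h2 (hne x hx) h3, fun a b => ?_⟩
      refine (pusha_mul h5 (G := fun _ => (Z z)⁻¹) (G' := 0)
        (fun a b => hasDerivAt_const x _) a b).congr_deriv ?_
      rw [Matrix.mul_zero, add_zero, Matrix.smul_mul, Matrix.mul_assoc]
    · obtain ⟨Q, h1, h2⟩ := AlgF.mat_mul (V := Metric.ball x₀ ε) (W := fun _ => (Z z)⁻¹) hQ
        (fun a j => algF_const _ _) a b
      exact ⟨Q, h1, by filter_upwards [hn] with x hx using h2 x (hsub hx)⟩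
  obtain ⟨hd, q', c', hc', hq'⟩ := bez_der (P := (S.map ψ).P) (hP.map _) hI'
  obtain ⟨w, δ, hδ, -, hw⟩ := exists_ball (mul_ne_zero hc' hD') 0 one_pos
  simp only [eval_mul, mul_ne_zero_iff] at hw
  obtain ⟨v, h0, h1⟩ := pusha_root (S := S.map ψ) (q := q') (δ := c') ⟨hP.map _, rfl, hq'⟩ hd
    (hw w (Metric.mem_ball_self hδ)).1
  obtain ⟨u, hu⟩ := exists_branch h0 h1
  obtain ⟨W, hW0, hW⟩ := exists_holM (c := w)
    (B := fun x => ((S.map ψ).D.eval x)⁻¹ • (S.map ψ).A.map (evalEval x (u x))) (by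
      filter_upwards [hu, Metric.ball_mem_nhds w hδ] with x hx hb a b
      exact ((S.map ψ).D.differentiableAt.fun_inv (hw x hb).2).fun_mul
        (hasDerivAt_evalEval hx.1.hasDerivAt ((S.map ψ).A a b)).differentiableAt)
  have hN : ∀ᶠ x in 𝓝 w, Near (S.map ψ) u W x := by
    filter_upwards [hu, hW, Metric.ball_mem_nhds w hδ] with x hx hx' hb
    exact ⟨hx.1, hx.2, ee_ne hq' hx.2 (hw x hb).1 (hw x hb).2, fun a b => by
      rw [← Matrix.smul_mul]; exact hx' a b⟩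
  have hG : ∀ a b, AlgG (fun x => W x a b) w := fun a b =>
    (tay_near S ψ hN hW0 a b).2 (spec_det2 ι ψ hi hP hI (ff S a b) (spec_uncountable x₁ hη) y
      (fun z hz => (hZ z (hsub hz)).2.1) (halg a b) hu.self_of_nhds.2)
  choose Q hQ0 hQ1 using hG
  have hcont : ContinuousAt (fun z => (W z).det) w :=
    (continuous_id.matrix_det.continuousAt).comp (continuousAt_pi.2 fun a => continuousAt_pi.2
      fun b => (hW.self_of_nhds a b).continuousAt)
  have h5 : (W w).det ≠ 0 := by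
    rw [hW0, det_one]
    exact one_ne_zero
  obtain ⟨θ, hθ, hb⟩ := Metric.eventually_nhds_iff_ball.1
    ((hN.and (eventually_all.2 fun a => eventually_all.2 fun b => hQ1 a b)).and
      ((hcont.eventually_ne h5).and (Metric.ball_mem_nhds w hδ)))
  exact ⟨w, θ, u, W, hθ, fun x hx => ⟨(hb x hx).1.1.1, (hb x hx).1.1.2.1, (hw x (hb x hx).2.2).2,
    (hb x hx).2.1, (hb x hx).1.1.2.2.2⟩, fun a b => ⟨Q a b, hQ0 a b, fun x hx => (hb x hx).1.2 a b⟩⟩

theorem alg_spec (ι ψ : R →+* ℂ) (hk : RingHom.ker ι ≤ RingHom.ker ψ) (S : Sys R r)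
    (hP : S.P.Monic) (hI : Irreducible (S.map ι).P) (hA : (S.map ι).Alg)
    (hI' : Irreducible (S.map ψ).P) (hD' : (S.map ψ).D ≠ 0) : (S.map ψ).Alg := by
  let j : R →+* specR ι ψ :=
    (ι.prod ψ).codRestrict (specR ι ψ) fun y => ⟨1, y, one_ne_zero, by simp, by simp⟩
  let ι' : specR ι ψ →+* ℂ := (RingHom.fst ℂ ℂ).comp (specR ι ψ).val.toRingHom
  let ψ' : specR ι ψ →+* ℂ := (RingHom.snd ℂ ℂ).comp (specR ι ψ).val.toRingHom
  have hi' : Function.Injective ι' := by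
    rw [injective_iff_map_eq_zero]
    rintro ⟨x, N, y, hN, h1, h2⟩ hx
    have h3 : x.1 = 0 := hx
    have h4 : ψ y = 0 := hk (show ι y = 0 by rw [← h1, h3, mul_zero])
    rw [h4] at h2
    exact Subtype.ext (Prod.ext h3 ((mul_eq_zero.1 h2).resolve_left (Int.cast_ne_zero.2 hN)))
  have e1 : (S.map j).map ι' = S.map ι := Sys.map_map S j ι'
  have e2 : (S.map j).map ψ' = S.map ψ := Sys.map_map S j ψ'
  exact e2 ▸ spec_rat2 ι' ψ' hi' (S.map j) (hP.map _) (e1 ▸ hI) (e1 ▸ hA) (e2 ▸ hI') (e2 ▸ hD')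

end Pool.Agent.GR.SP
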