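import Pool.Agent.Lib.MP_aa40d3_nt.CV.Stmt

/-! Definition used in the statement: all solutions are algebraic. -/

open Polynomial Matrix
open scoped Polynomial.Bivariate

namespace Pool.Agent.GR.CV

/-- Every holomorphic solution `u` near a point `w` with `D w ≠ 0`, on every branch `y` of the curve
with `P_y ≠ 0` at `w`, has algebraic functions as entries. -/
def Sys.AlgAll {r : ℕ} (S : Sys ℂ r) : Prop :=
  ∀ (w : ℂ) (y : ℂ → ℂ) (u : ℂ → Fin r → ℂ), S.D.eval w ≠ 0 →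
    (derivative S.P).evalEval w (y w) ≠ 0 →
    (∀ᶠ x in nhds w, DifferentiableAt ℂ y x ∧ S.P.evalEval x (y x) = 0 ∧ ∀ a, HasDerivAt
      (fun z => u z a) (((S.D.eval x)⁻¹ • (S.A.map (evalEval x (y x)) *ᵥ u x)) a) x) →
    ∀ a, ∃ Q : ℂ[X][Y], Q ≠ 0 ∧ ∀ᶠ x in nhds w, Q.evalEval x (u x a) = 0

end Pool.Agent.GR.CV
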