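import Pool.Agent.Lib.MP_aa40d3_nt.SP.Main
import Pool.Agent.Lib.MP_aa40d3_nt.SP.AtD
import Pool.Agent.Lib.MP_aa40d3_nt.CV.SprA

/-! All solutions on all branches of all specialisations are algebraic. -/

open Polynomial Matrix Filter Topology
open scoped Polynomial.Bivariate

namespace Pool.Agent.GR.SP

open Pool.Agent.GR.CV

variable {R : Type} [CommRing R] {r : ℕ}

/-- A fundamental matrix at an ordinary point of a branch. -/
theorem exists_near {S : Sys ℂ r} {w : ℂ} {y : ℂ → ℂ} (hD : S.D.eval w ≠ 0)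
    (hy : (derivative S.P).evalEval w (y w) ≠ 0)
    (hu : ∀ᶠ x in 𝓝 w, DifferentiableAt ℂ y x ∧ S.P.evalEval x (y x) = 0) :
    ∃ W : ℂ → Matrix (Fin r) (Fin r) ℂ, W w = 1 ∧ ∀ᶠ x in 𝓝 w, S.D.eval x ≠ 0 ∧ Near S y W x := by
  have h1 : ∀ᶠ x in 𝓝 w, S.D.eval x ≠ 0 := S.D.continuous.continuousAt.eventually_ne hD
  have h2 : ∀ᶠ x in 𝓝 w, (derivative S.P).evalEval x (y x) ≠ 0 :=
    (hasDerivAt_evalEval hu.self_of_nhds.1.hasDerivAt _).continuousAt.eventually_ne hy
  obtain ⟨W, hW0, hW⟩ := exists_holM (c := w)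
    (B := fun x => (S.D.eval x)⁻¹ • S.A.map (evalEval x (y x))) (by
      filter_upwards [hu, h1] with x hx hb a b
      exact (S.D.differentiableAt.fun_inv hb).fun_mul
        (hasDerivAt_evalEval hx.1.hasDerivAt (S.A a b)).differentiableAt)
  refine ⟨W, hW0, ?_⟩
  filter_upwards [hu, hW, h1, h2] with x hx hx' k1 k2
  refine ⟨k1, hx.1, hx.2, ?_, fun a b => by rw [← Matrix.smul_mul]; exact hx' a b⟩
  rw [ee, evalEval_mul, evalEval_C]
  exact mul_ne_zero k1 k2

theorem all_of_one {S : Sys ℂ r} (h : ∀ w y W, (∀ᶠ x in 𝓝 w, Near S y W x) → W w = 1 →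
    ∀ a b, AlgG (fun x => W x a b) w) : S.AlgAll := by
  intro w y u hD hy hu a
  obtain ⟨W, hW0, hW⟩ := exists_near hD hy (hu.mono fun x hx => ⟨hx.1, hx.2.1⟩)
  let U : ℂ → Matrix (Fin r) (Fin r) ℂ := fun x => Matrix.of fun i _ => u x i
  choose Q hQ0 hQ using h w y W (hW.mono fun x hx => hx.2) hW0
  choose Q' hQ0' hQ' using h w y (fun x => W x * (1 - U w) + U x) (by
    filter_upwards [hu, hW] with x hx hx'
    refine ⟨hx.1, hx.2.1, hx'.2.2.2.1, fun a b => ?_⟩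
    refine ((pusha_mul hx'.2.2.2.2 (G := fun _ => 1 - U w) (G' := 0)
      (fun a b => hasDerivAt_const x _) a b).fun_add (hx.2.2 a)).congr_deriv ?_
    rw [Matrix.mul_zero, add_zero, Matrix.smul_mul, Matrix.mul_assoc, Matrix.mul_add, smul_add,
      Matrix.add_apply]
    rfl) (by rw [hW0, Matrix.one_mul, sub_add_cancel])
  let V : Set ℂ := {x | (∀ a b, (Q a b).evalEval x (W x a b) = 0) ∧
    ∀ a b, (Q' a b).evalEval x ((W x * (1 - U w) + U x) a b) = 0}
  have hV : V ∈ 𝓝 w := (eventually_all.2 fun a => eventually_all.2 fun b => hQ a b).and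
    (eventually_all.2 fun a => eventually_all.2 fun b => hQ' a b)
  have k1 : AlgF V fun x => (W x * (1 - U w) + U x) a a :=
    ⟨Q' a a, hQ0' a a, fun x hx => hx.2 a a⟩
  have k2 : AlgF V fun x => (W x * (U w - 1)) a a :=
    AlgF.mat_mul (W := fun _ => U w - 1) (fun a b => ⟨Q a b, hQ0 a b, fun x hx => hx.1 a b⟩)
      (fun a b => algF_const _ _) a a
  obtain ⟨T, hT0, hT⟩ := (k1.add k2).congr (g := fun x => u x a) fun x _ => by
    rw [← Matrix.add_apply, add_right_comm, ← Matrix.mul_add, sub_add_sub_cancel, sub_self,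
      Matrix.mul_zero, zero_add]
    rfl
  exact ⟨T, hT0, mem_of_superset hV hT⟩

theorem all_rat [Algebra ℚ R] (ι ψ : R →+* ℂ) (hi : Function.Injective ι) (S : Sys R r)
    (hP : S.P.Monic) (hI : Irreducible (S.map ι).P) (hA : (S.map ι).Alg) : (S.map ψ).AlgAll := by
  obtain ⟨x₀, ε, y, Z, hε, hZ, hQ⟩ := hA
  obtain ⟨-, q, c, hc, hq⟩ := bez_der (P := (S.map ι).P) (hP.map _) hI
  obtain ⟨x₁, η, hη, hsub, hne⟩ := exists_ball hc x₀ hε
  have halg : ∀ a b, ∀ z ∈ Metric.ball x₁ η,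
      IsAlgebraic ℂ[X] (PowerSeries.map (ev2 ι z (y z)) (ff S a b)) := by
    intro a b z hz
    have hn := Metric.isOpen_ball.mem_nhds hz
    refine (tay_near (Z := fun x => Z x * (Z z)⁻¹) S ι ?_
      (Matrix.mul_nonsing_inv _ (hZ z (hsub hz)).2.2.2.1.isUnit) a b).1 ?_
    · filter_upwards [hn] with x hx
      obtain ⟨h1, h2, h3, -, h5⟩ := hZ x (hsub hx)
      refine ⟨h1, h2, ee_ne hq h2 (hne x hx) h3, fun a b => ?_⟩
      refine (pusha_mul h5 (G := fun _ => (Z z)⁻¹) (G' := 0)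
        (fun a b => hasDerivAt_const x _) a b).congr_deriv ?_
      rw [Matrix.mul_zero, add_zero, Matrix.smul_mul, Matrix.mul_assoc]
    · obtain ⟨Q, h1, h2⟩ := AlgF.mat_mul (V := Metric.ball x₀ ε) (W := fun _ => (Z z)⁻¹) hQ
        (fun a j => algF_const _ _) a b
      exact ⟨Q, h1, by filter_upwards [hn] with x hx using h2 x (hsub hx)⟩
  exact all_of_one fun w u W hN hW0 a b =>
    (tay_near S ψ hN hW0 a b).2 (spec_det2 ι ψ hi hP hI (ff S a b) (spec_uncountable x₁ hη) y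
      (fun z hz => (hZ z (hsub hz)).2.1) (halg a b) hN.self_of_nhds.2.1)

/-- No hypothesis on the specialisation besides the inclusion of kernels. -/
theorem all_spec (ι ψ : R →+* ℂ) (hk : RingHom.ker ι ≤ RingHom.ker ψ) (S : Sys R r)
    (hP : S.P.Monic) (hI : Irreducible (S.map ι).P) (hA : (S.map ι).Alg) : (S.map ψ).AlgAll := by
  let j : R →+* specR ι ψ :=
    (ι.prod ψ).codRestrict (specR ι ψ) fun y => ⟨1, y, one_ne_zero, by simp, by simp⟩
  let ι' : specR ι ψ →+* ℂ := (RingHom.fst ℂ ℂ).comp (specR ι ψ).val.toRingHom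
  let ψ' : specR ι ψ →+* ℂ := (RingHom.snd ℂ ℂ).comp (specR ι ψ).val.toRingHom
  have hi' : Function.Injective ι' := by
    rw [injective_iff_map_eq_zero]
    rintro ⟨x, N, y, hN, h1, h2⟩ hx
    have h3 : x.1 = 0 := hx
    have h4 : ψ y = 0 := hk (show ι y = 0 by rw [← h1, h3, mul_zero])
    rw [h4] at h2
    exact Subtype.ext (Prod.ext h3 ((mul_eq_zero.1 h2).resolve_left (Int.cast_ne_zero.2 hN)))
  have e1 : (S.map j).map ι' = S.map ι := Sys.map_map S j ι'
  have e2 : (S.map j).map ψ' = S.map ψ := Sys.map_map S j ψ'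
  exact e2 ▸ all_rat ι' ψ' hi' (S.map j) (hP.map _) (e1 ▸ hI) (e1 ▸ hA)

/-- On an irreducible curve there are a branch and a fundamental matrix. -/
theorem alg_of_all {S : Sys ℂ r} (h : S.AlgAll) (hP : S.P.Monic) (hI : Irreducible S.P)
    (hD : S.D ≠ 0) : S.Alg := by
  obtain ⟨hd, q, c, hc, hq⟩ := bez_der hP hI
  obtain ⟨w, δ, hδ, -, hw⟩ := exists_ball (mul_ne_zero hc hD) 0 one_pos
  simp only [eval_mul, mul_ne_zero_iff] at hw
  obtain ⟨k1, k2⟩ := hw w (Metric.mem_ball_self hδ)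
  obtain ⟨v, h0, h1⟩ := pusha_root (S := S) (q := q) (δ := c) ⟨hP, rfl, hq⟩ hd k1
  obtain ⟨u, hu⟩ := exists_branch h0 h1
  have k3 : (derivative S.P).evalEval w (u w) ≠ 0 := fun e =>
    k1 (bez_eval hq hu.self_of_nhds.2 e)
  obtain ⟨W, hW0, hW⟩ := exists_near k2 k3 hu
  choose Q hQ0 hQ1 using fun a b => h w u (fun x i => W x i b) k2 k3
    (hW.mono fun x hx => ⟨hx.2.1, hx.2.2.1, fun i => hx.2.2.2.2 i b⟩) a
  have hcont : ContinuousAt (fun z => (W z).det) w :=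
    (continuous_id.matrix_det.continuousAt).comp (continuousAt_pi.2 fun a => continuousAt_pi.2
      fun b => (hW.self_of_nhds.2.2.2.2 a b).continuousAt)
  have h5 : (W w).det ≠ 0 := by
    rw [hW0, det_one]
    exact one_ne_zero
  obtain ⟨θ, hθ, hb⟩ := Metric.eventually_nhds_iff_ball.1
    ((hW.and (eventually_all.2 fun a => eventually_all.2 fun b => hQ1 a b)).and
      (hcont.eventually_ne h5))
  exact ⟨w, θ, u, W, hθ, fun x hx => ⟨(hb x hx).1.1.2.1, (hb x hx).1.1.2.2.1, (hb x hx).1.1.1,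
    (hb x hx).2, (hb x hx).1.1.2.2.2.2⟩, fun a b => ⟨Q a b, hQ0 a b, fun x hx => (hb x hx).1.2 a b⟩⟩

/-- It is enough to have fundamental matrices on a dense open set of closed points. -/
theorem fund_loc [Algebra.FiniteType ℤ R] (ι : R →+* ℂ) (S : Sys R r) {f : R} (hf : ι f ≠ 0)
    (hF : ∀ m : Ideal R, m.IsMaximal → RingHom.ker ι ≤ m → f ∉ m →
      (S.map (Ideal.Quotient.mk m)).Fund) :
    ∃ (R' : Subring ℂ) (j : R →+* R'), Algebra.FiniteType ℤ R' ∧
      (S.map j).map R'.subtype = S.map ι ∧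
        ∀ m : Ideal R', m.IsMaximal → ((S.map j).map (Ideal.Quotient.mk m)).Fund := by
  obtain ⟨R', j, h1, h2, h3⟩ := exists_ring ι {(ι f)⁻¹}
  have h4 : ∀ a, (j a : ℂ) = ι a := fun a => RingHom.congr_fun h2 a
  refine ⟨R', j, h1, by rw [Sys.map_map, h2], fun m hm => ?_⟩
  have h5 := (hF _ (comap_max j m) (fun a ha => ?_) fun hfm => hm.ne_top ?_).map
    (Ideal.quotientMap_injective (I := m) (f := j))
  · rwa [Sys.map_map, Ideal.quotientMap_comp_mk, ← Sys.map_map] at h5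
  · have e : j a = 0 := Subtype.ext ((h4 a).trans ha)
    rw [Ideal.mem_comap, e]
    exact m.zero_mem
  · refine Ideal.eq_top_of_isUnit_mem m hfm
      (IsUnit.of_mul_eq_one ⟨_, h3 _ (Finset.mem_singleton_self _)⟩ (Subtype.ext ?_))
    rw [Subring.coe_mul, h4]
    exact mul_inv_cancel₀ hf

end Pool.Agent.GR.SP
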