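import Pool.Agent.Lib.MP_aa40d3_nt.SP.At
import Pool.Agent.Lib.MP_aa40d3_nt.NP.Push

/-! Nilpotent curvature on a dense open set of closed points. -/

namespace Pool.Agent.GR.SP

open Pool.Agent.GR.CV

variable {R : Type} [CommRing R] {r : ℕ}

theorem loc_ring [Algebra.FiniteType ℤ R] (ι : R →+* ℂ) {f : R} (hf : ι f ≠ 0) :
    ∃ (R' : Subring ℂ) (j : R →+* R'), Algebra.FiniteType ℤ R' ∧ R'.subtype.comp j = ι ∧
      ∀ m : Ideal R', m.IsMaximal →
        (m.comap j).IsMaximal ∧ RingHom.ker ι ≤ m.comap j ∧ f ∉ m.comap j := by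
  obtain ⟨R', j, h1, h2, h3⟩ := exists_ring ι {(ι f)⁻¹}
  have h4 : ∀ a, (j a : ℂ) = ι a := fun a => RingHom.congr_fun h2 a
  refine ⟨R', j, h1, h2, fun m hm => ⟨comap_max j m, fun a ha => ?_, fun hfm => hm.ne_top ?_⟩⟩
  · have e : j a = 0 := Subtype.ext ((h4 a).trans ha)
    rw [Ideal.mem_comap, e]
    exact m.zero_mem
  · refine Ideal.eq_top_of_isUnit_mem m hfm
      (IsUnit.of_mul_eq_one ⟨_, h3 _ (Finset.mem_singleton_self _)⟩ (Subtype.ext ?_))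
    rw [Subring.coe_mul, h4]
    exact mul_inv_cancel₀ hf

theorem tri_loc [Algebra.FiniteType ℤ R] (ι : R →+* ℂ) (S : CV.Sys R r) {f : R} (hf : ι f ≠ 0)
    (hF : ∀ m : Ideal R, m.IsMaximal → RingHom.ker ι ≤ m → f ∉ m →
      (S.map (Ideal.Quotient.mk m)).Tri) :
    ∃ (R' : Subring ℂ) (j : R →+* R'), Algebra.FiniteType ℤ R' ∧
      (S.map j).map R'.subtype = S.map ι ∧
        ∀ m : Ideal R', m.IsMaximal → ((S.map j).map (Ideal.Quotient.mk m)).Tri := by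
  obtain ⟨R', j, h1, h2, h3⟩ := loc_ring ι hf
  refine ⟨R', j, h1, by rw [CV.Sys.map_map, h2], fun m hm => ?_⟩
  obtain ⟨k1, k2, k3⟩ := h3 m hm
  have h5 := NP.tri_map (hF _ k1 k2 k3) (Ideal.quotientMap_injective (I := m) (f := j))
  rwa [CV.Sys.map_map, Ideal.quotientMap_comp_mk, ← CV.Sys.map_map] at h5

end Pool.Agent.GR.SP
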