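import Pool.Agent.Lib.MP_aa40d3_nt.SP.Det
import Pool.Agent.Lib.MP_aa40d3_nt.GR.SpecB
import Pool.Agent.Lib.MP_aa40d3_nt.CV.PushA
import Pool.Agent.Lib.MP_aa40d3_nt.CV.Dx

/-! Taylor coefficients of the normalised solution are values of universal polynomials. -/

open Polynomial Matrix Filter Topology
open scoped Polynomial.Bivariate

namespace Pool.Agent.GR.SP

open Pool.Agent.GR.CV

variable {R R' : Type} [CommRing R] [CommRing R'] {r : ℕ}

/-- The common denominator. -/
noncomputable def ee (S : Sys R r) : R[X][Y] := C S.D * derivative S.P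

/-- The derivative along the curve, times the denominator. -/
noncomputable def tt (S : Sys R r) (a : R[X][Y]) : R[X][Y] :=
  C S.D * (derivative S.P * dX a - dX S.P * derivative a)

/-- Numerators of the higher derivatives. -/
noncomputable def NN (S : Sys R r) : ℕ → Matrix (Fin r) (Fin r) R[X][Y]
  | 0 => 1
  | k + 1 => ee S • (NN S k).map (tt S) - ((2 * k : ℕ) * tt S (ee S)) • NN S k +
      (ee S * derivative S.P) • (NN S k * S.A)

theorem ee_map (S : Sys R r) (φ : R →+* R') : ee (S.map φ) = (ee S).map (mapRingHom φ) := by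
  simp [ee, Sys.map, derivative_map]

theorem tt_map (S : Sys R r) (φ : R →+* R') (a : R[X][Y]) :
    tt (S.map φ) (a.map (mapRingHom φ)) = (tt S a).map (mapRingHom φ) := by
  simp [tt, Sys.map, derivative_map, dX_map]

theorem NN_map (S : Sys R r) (φ : R →+* R') (k : ℕ) :
    NN (S.map φ) k = (NN S k).map (Polynomial.map (mapRingHom φ)) := by
  induction k with
  | zero => exact (Matrix.map_one _ (Polynomial.map_zero _) (Polynomial.map_one _)).symm
  | succ k ih =>
    ext1 a b
    simp only [NN, ih, ee_map, tt_map, Matrix.add_apply, Matrix.sub_apply, Matrix.smul_apply,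
      Matrix.map_apply, Matrix.mul_apply, smul_eq_mul, Polynomial.map_add, Polynomial.map_sub,
      Polynomial.map_mul, Polynomial.map_sum, Polynomial.map_natCast]
    simp only [Sys.map, derivative_map, Matrix.map_apply]

theorem iter_chain {H : ℕ → ℂ → ℂ} (h : ∀ k, ∀ᶠ s in 𝓝 (0 : ℂ), HasDerivAt (H k) (H (k + 1) s) s)
    (k : ℕ) : iteratedDeriv k (H 0) =ᶠ[𝓝 0] H k := by
  induction k with
  | zero => rw [iteratedDeriv_zero]
  | succ k ih =>
    rw [iteratedDeriv_succ]
    exact ih.deriv.trans ((h k).mono fun s hs => hs.deriv)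

/-- A branch and a solution near a point. -/
def Near (S : Sys ℂ r) (y : ℂ → ℂ) (Z : ℂ → Matrix (Fin r) (Fin r) ℂ) (x : ℂ) : Prop :=
  DifferentiableAt ℂ y x ∧ S.P.evalEval x (y x) = 0 ∧ (ee S).evalEval x (y x) ≠ 0 ∧
    ∀ a b, HasDerivAt (fun z => Z z a b)
      (((S.D.eval x)⁻¹ • (S.A.map (evalEval x (y x)) * Z x)) a b) x

variable {S : Sys ℂ r} {y : ℂ → ℂ} {Z : ℂ → Matrix (Fin r) (Fin r) ℂ} {x : ℂ}

theorem near_ev (h : ∀ᶠ z in 𝓝 x, Near S y Z z) (p : ℂ[X][Y]) :
    HasDerivAt (fun z => p.evalEval z (y z))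
      ((tt S p).evalEval x (y x) / (ee S).evalEval x (y x)) x := by
  obtain ⟨h1, -, h3, -⟩ := h.self_of_nhds
  have h4 := (hasDerivAt_evalEval h1.hasDerivAt S.P).unique
    ((hasDerivAt_const x (0 : ℂ)).congr_of_eventuallyEq (h.mono fun _ t => t.2.1))
  refine (hasDerivAt_evalEval h1.hasDerivAt p).congr_deriv ?_
  rw [eq_div_iff h3]
  simp only [tt, ee, evalEval_mul, evalEval_sub, evalEval_C]
  linear_combination S.D.eval x * (derivative p).evalEval x (y x) * h4

/-- The higher derivatives. -/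
noncomputable def GG (S : Sys ℂ r) (y : ℂ → ℂ) (Z : ℂ → Matrix (Fin r) (Fin r) ℂ) (k : ℕ) (x : ℂ) :
    Matrix (Fin r) (Fin r) ℂ :=
  ((ee S).evalEval x (y x))⁻¹ ^ (2 * k) • ((NN S k).map (evalEval x (y x)) * Z x)

theorem near_GG (h : ∀ᶠ z in 𝓝 x, Near S y Z z) (k : ℕ) (a b : Fin r) :
    HasDerivAt (fun z => GG S y Z k z a b) (GG S y Z (k + 1) x a b) x := by
  obtain ⟨-, -, h3, h4⟩ := h.self_of_nhds
  have h1 := ((near_ev h (ee S)).fun_inv h3).fun_pow (2 * k)
  have h2 := pusha_mul (F := fun z => (NN S k).map (evalEval z (y z)))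
    (F' := ((ee S).evalEval x (y x))⁻¹ • ((NN S k).map (tt S)).map (evalEval x (y x)))
    (fun a b => by simpa [div_eq_inv_mul] using near_ev h (NN S k a b)) h4 a b
  refine (h1.fun_mul h2).congr_deriv ?_
  have e1 : (NN S (k + 1)).map (evalEval x (y x)) =
      (ee S).evalEval x (y x) • ((NN S k).map (tt S)).map (evalEval x (y x)) -
        ((2 * k : ℕ) * (tt S (ee S)).evalEval x (y x)) • (NN S k).map (evalEval x (y x)) +
        ((ee S).evalEval x (y x) * (derivative S.P).evalEval x (y x)) •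
          ((NN S k).map (evalEval x (y x)) * S.A.map (evalEval x (y x))) := by
    ext1 a b
    simp only [NN, Matrix.add_apply, Matrix.sub_apply, Matrix.smul_apply, Matrix.map_apply,
      Matrix.mul_apply, smul_eq_mul, evalEval_add, evalEval_sub, evalEval_mul, evalEval_finsetSum,
      evalEval_natCast]
  have e2 : (ee S).evalEval x (y x) = S.D.eval x * (derivative S.P).evalEval x (y x) := by
    rw [ee, evalEval_mul, evalEval_C]
  have e3 : (S.D.eval x)⁻¹ = (derivative S.P).evalEval x (y x) * ((ee S).evalEval x (y x))⁻¹ := by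
    rw [e2] at h3 ⊢
    have := left_ne_zero_of_mul h3
    have := right_ne_zero_of_mul h3
    field_simp
  rw [GG, e1, e3]
  simp only [Matrix.add_mul, Matrix.sub_mul, Matrix.smul_mul, Matrix.mul_smul, Matrix.mul_assoc,
    Matrix.add_apply, Matrix.sub_apply, Matrix.smul_apply, smul_eq_mul]
  generalize (ee S).evalEval x (y x) = e at h3
  rcases k with _ | k
  · rw [mul_zero, Nat.cast_zero, pow_zero, zero_add, mul_one, inv_pow]
    field_simp
    ring
  · rw [show 2 * (k + 1) - 1 = 2 * k + 1 by omega, show 2 * (k + 1 + 1) = 2 * k + 4 by omega]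
    generalize ((2 * (k + 1) : ℕ) : ℂ) = m
    rw [show 2 * (k + 1) = 2 * k + 2 by omega, pow_add, pow_add, pow_add]
    generalize e⁻¹ ^ (2 * k) = w
    field_simp
    ring

/-- The universal series. -/
noncomputable def ff [Algebra ℚ R] (S : Sys R r) (a b : Fin r) : PowerSeries R[X][Y] :=
  PowerSeries.mk fun k => ((k.factorial : ℚ)⁻¹) • NN S k a b

theorem tay_near [Algebra ℚ R] (S : Sys R r) (ψ : R →+* ℂ)
    (h : ∀ᶠ z in 𝓝 x, Near (S.map ψ) y Z z) (h1 : Z x = 1) (a b : Fin r) :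
    AlgG (fun z => Z z a b) x ↔ IsAlgebraic ℂ[X] (PowerSeries.map (ev2 ψ x (y x)) (ff S a b)) := by
  have h3 := h.self_of_nhds.2.2.1
  set Δ := (ee (S.map ψ)).evalEval x (y x) ^ 2 with hΔ
  have hΔ0 : Δ ≠ 0 := pow_ne_zero _ h3
  have hc : ContinuousAt (fun s : ℂ => x + Δ * s) 0 := by fun_prop
  have hc' : Tendsto (fun s : ℂ => x + Δ * s) (𝓝 0) (𝓝 x) := by simpa using hc.tendsto
  let H : ℕ → ℂ → ℂ := fun k s => Δ ^ k * GG (S.map ψ) y Z k (x + Δ * s) a b
  have hH : ∀ k, ∀ᶠ s in 𝓝 (0 : ℂ), HasDerivAt (H k) (H (k + 1) s) s := by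
    intro k
    filter_upwards [hc'.eventually h.eventually_nhds] with s hs
    have h1 : HasDerivAt (fun s : ℂ => x + Δ * s) Δ s := by
      simpa using ((hasDerivAt_id s).const_mul Δ).const_add x
    refine (((near_GG hs k a b).comp s h1).const_mul (Δ ^ k)).congr_deriv ?_
    simp only [H]
    ring
  have h0 : H 0 = fun s => Z (x + Δ * s) a b := by
    funext s
    simp [H, GG, NN]
  have hA : AnalyticAt ℂ (H 0) 0 :=
    Complex.analyticAt_iff_eventually_differentiableAt.2 ((hH 0).mono fun s hs => hs.differentiableAt)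
  have ht : tay (H 0) = PowerSeries.map (ev2 ψ x (y x)) (ff S a b) := by
    ext k
    rw [tay, PowerSeries.coeff_mk, (iter_chain hH k).self_of_nhds, PowerSeries.coeff_map, ff,
      PowerSeries.coeff_mk, map_rat_smul, ev2_apply]
    simp only [H, GG, mul_zero, add_zero, h1, Matrix.mul_one, NN_map, Matrix.smul_apply,
      Matrix.map_apply, smul_eq_mul]
    rw [hΔ, ← pow_mul, ← mul_assoc, ← mul_pow, mul_inv_cancel₀ h3, one_pow, one_mul, Rat.smul_def,
      div_eq_inv_mul]
    simp
  rw [← ht, ← algG_iff hA, h0]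
  refine ⟨fun h2 => AlgG.aff (f := fun z => Z z a b) hΔ0 (by rwa [mul_zero, add_zero]), fun h2 => ?_⟩
  have h4 := AlgG.aff (f := fun s => Z (x + Δ * s) a b) (a := -(Δ⁻¹ * x)) (w := x)
    (inv_ne_zero hΔ0) (by rw [neg_add_cancel]; exact h2)
  have h5 : ∀ s, x + Δ * (-(Δ⁻¹ * x) + Δ⁻¹ * s) = s := fun s => by field_simp; ring
  simpa only [h5] using h4

end Pool.Agent.GR.SP
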